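import Mathlib
import Pool.Agent.helper89.PU.Spec1

/-!
# BGL (project PU, MP_2e0e07_nt, one prime): the level structure for a big prime
-/

set_option autoImplicit false

namespace Pool.Agent.PV

open Matrix Polynomial Pool.Agent.GO Pool.Agent.AR Pool.Agent.RG Pool.Agent.HZ Pool.Agent.DS
  Pool.Agent.AX Pool.Agent.UM Pool.Agent.PU MeasureTheory NumberField

theorem BGL_norm_two (p : ℕ) [Fact p.Prime] (hp : p ≠ 2) (F : Type) [NormedField F] [NormedAlgebra ℚ_[p] F] :
    ‖(2 : F)‖ = 1 := by
  have h2 : (2 : F) = algebraMap ℚ_[p] F ((2 : ℕ) : ℚ_[p]) := by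
    rw [map_natCast]
    norm_num
  rw [h2, norm_algebraMap', Padic.norm_natCast_eq_one_iff]
  exact (Nat.coprime_primes (Fact.out : p.Prime) Nat.prime_two).mpr hp

theorem BGL (hBPW : BPW_stmt) (hBSG : BSG_stmt) : BGL_stmt := by
  intro p _ d Γ F κ _ _ _ _ _ _ _ _ red hred hd hdp R hc hint S hS hbig
  have hU : IsUltrametricDist F := ultra p F
  have hd1 : 0 < Module.finrank ℚ_[p] F := Module.finrank_pos
  refine ⟨GS R hint 1 one_pos, fun h => mem_GS R hint 1 one_pos h, ?_⟩
  exact
    { cont := hc
      int := hint
      closed := GS_closed R hc hint 1 one_pos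
      normal := GS_normal R hint 1 one_pos
      pos := one_pos
      le := le_refl 1
      small := by
        intro h hh
        rw [BGL_norm_two p (by omega) F, one_mul]
        exact (mem_GS R hint 1 one_pos h).mp hh
      pow := by
        intro h hh k
        rw [map_pow]
        exact hBPW p F d hd (by omega) (R h) (hint h) (det_unit hint h) ((mem_GS R hint 1 one_pos h).mp hh) k
      spn := by
        intro h hh
        obtain ⟨a, b, c, habc⟩ := hBSG p red hred R hint S hS (by omega) hbig h
        exact ⟨a, b, c, by rw [one_mul]; exact habc⟩ }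

end Pool.Agent.PV
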